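import Mathlib

namespace Pool.Agent.Results.MP_6e2d11_co.Upper

open Finset Classical

/-- `μ(G[U])`: the sum over `v ∈ U` of the squared number of neighbours of `v` inside `U`. -/
noncomputable def mu {n : ℕ} (G : SimpleGraph (Fin n)) (U : Finset (Fin n)) : ℕ :=
  ∑ v ∈ U, (U.filter (G.Adj v)).card ^ 2

lemma din_le {n : ℕ} (G : SimpleGraph (Fin n)) (U : Finset (Fin n)) (v : Fin n) :
    (U.filter (G.Adj v)).card ≤ G.degree v := by
  rw [← SimpleGraph.card_neighborFinset_eq_degree]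
  apply card_le_card; intro w hw; simpa using (mem_filter.1 hw).2

lemma mu_le {n : ℕ} (G : SimpleGraph (Fin n)) (U : Finset (Fin n)) (s : ℝ) (hs : 0 ≤ s)
    (h : ∀ v ∈ U, ((U.filter (G.Adj v)).card : ℝ) ≤ s) :
    (mu G U : ℝ) ≤ s * ∑ v, (G.degree v : ℝ) := by
  unfold mu; push_cast
  calc _ ≤ ∑ v ∈ U, s * (G.degree v : ℝ) := sum_le_sum fun v hv => by
        rw [sq]
        exact mul_le_mul (h v hv) (by exact_mod_cast din_le G U v) (by positivity) hs
    _ ≤ ∑ v, s * (G.degree v : ℝ) :=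
        sum_le_sum_of_subset_of_nonneg (subset_univ _) fun _ _ _ => by positivity
    _ = _ := by rw [mul_sum]

lemma upper {n : ℕ} (G : SimpleGraph (Fin n)) (m : ℕ) (hm : G.edgeFinset.card = m) :
    ∃ U : Finset (Fin n), (mu G U : ℝ) ≤ 2 * m * √(2 * m) ∧ (mu G Uᶜ : ℝ) ≤ 2 * m * √(2 * m) := by
  have hsum : ∑ v, (G.degree v : ℝ) = 2 * m := by
    have := G.sum_degrees_eq_twice_card_edges
    rw [hm] at this; exact_mod_cast this
  set s := √(2 * (m : ℝ)) with hs
  have hs0 : 0 ≤ s := Real.sqrt_nonneg _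
  have hss : s * s = 2 * m := Real.mul_self_sqrt (by positivity)
  let U : Finset (Fin n) := univ.filter (fun v => s < (G.degree v : ℝ))
  have hU : (U.card : ℝ) * s ≤ 2 * m := by
    rw [← hsum]
    calc (U.card : ℝ) * s = ∑ _v ∈ U, s := by simp
      _ ≤ ∑ v ∈ U, (G.degree v : ℝ) := sum_le_sum fun v hv => (mem_filter.1 hv).2.le
      _ ≤ _ := sum_le_sum_of_subset_of_nonneg (subset_univ _) fun _ _ _ => by positivity
  refine ⟨U, ?_, ?_⟩
  · have := mu_le G U U.card (by positivity)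
      (fun v _ => by exact_mod_cast card_filter_le _ _)
    rw [hsum, ← hss] at this
    rw [← hss] at hU ⊢
    nlinarith [mul_le_mul_of_nonneg_right hU hs0]
  · have := mu_le G Uᶜ s hs0 (fun v hv => by
      have h1 : ¬ s < (G.degree v : ℝ) := by simpa [U] using hv
      have h2 : ((Uᶜ.filter (G.Adj v)).card : ℝ) ≤ G.degree v := by exact_mod_cast din_le G _ v
      linarith [not_lt.1 h1])
    rw [hsum] at this; linarith

lemma mu_top {n : ℕ} (U : Finset (Fin n)) :
    (mu ⊤ U : ℝ) = U.card * ((U.card : ℝ) - 1) ^ 2 := by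
  unfold mu; push_cast
  rw [sum_congr rfl (g := fun _ => ((U.card : ℝ) - 1) ^ 2)]
  · simp
  · intro v hv
    have : ∀ inst, @Finset.filter _ ((⊤ : SimpleGraph (Fin n)).Adj v) inst U = U.erase v := by
      intro inst; ext w; simp [ne_comm, and_comm]
    have h1 := card_erase_add_one hv
    rw [this, ← h1]; push_cast; ring

/-- Both parts have `μ ≤ (2m)^{3/2}`. -/
theorem result (n : ℕ) (G : SimpleGraph (Fin n)) (m : ℕ) (hm : G.edgeFinset.card = m) :
    ∃ U : Finset (Fin n),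
      (mu G U : ℝ) ≤ 2 * m * √(2 * m) ∧ (mu G Uᶜ : ℝ) ≤ 2 * m * √(2 * m) := upper G m hm

end Pool.Agent.Results.MP_6e2d11_co.Upper
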